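import Pool.Agent.N229.SC.Stm

/-!
Project SC, problem MP_83fd13_an: leaf FN1, the conformal map on the disc (helper189); compare
Pool/Agent/N742/DR/CF5.lean.
-/

set_option autoImplicit false

open Set Filter Topology

namespace Pool.Agent.Run7.h189.SC

open Pool.Agent.N229.SC

private theorem fn1_pow (P : Par) (hn : P.n ≠ 0) : rF P ^ P.n = Rad :=
  Real.rpow_inv_natCast_pow (by norm_num [Rad]) hn

private theorem fn1_lt (P : Par) (hn : P.n ≠ 0) {z : ℂ} (hz : z ∈ Metric.ball (0 : ℂ) (rF P)) :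
    z ^ P.n ∈ Metric.ball (0 : ℂ) Rad := by
  rw [mem_ball_zero_iff] at hz ⊢
  rw [norm_pow, ← fn1_pow P hn]
  exact pow_lt_pow_left₀ hz (norm_nonneg z) hn

private theorem fn1_deriv (P : Par) (hn : P.n ≠ 0) (h : W)
    (e1 : DifferentiableOn ℂ (evh (Phi P h)) (Metric.ball 0 Rad))
    (e2 : ∀ t : ℂ, ‖t‖ < Rad → evh (der (Phi P h)) t = t * deriv (evh (Phi P h)) t) {z : ℂ}
    (hz : z ∈ Metric.ball (0 : ℂ) (rF P)) :
    HasDerivAt (fF P h) (P.ρ * Complex.exp (evh (Phi P h) (z ^ P.n) / P.n) *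
      (1 + evh (beta P h) (z ^ P.n))) z := by
  have h1' := fn1_lt P hn hz
  have h2 : HasDerivAt (evh (Phi P h)) (deriv (evh (Phi P h)) (z ^ P.n)) (z ^ P.n) :=
    (e1.differentiableAt (Metric.isOpen_ball.mem_nhds h1')).hasDerivAt
  have h3 : HasDerivAt (fun w : ℂ => evh (Phi P h) (w ^ P.n))
      (deriv (evh (Phi P h)) (z ^ P.n) * ((P.n : ℂ) * z ^ (P.n - 1))) z :=
    HasDerivAt.comp (h₂ := evh (Phi P h)) (h := fun w : ℂ => w ^ P.n) z h2 (hasDerivAt_pow P.n z)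
  have h4 := (h3.div_const (P.n : ℂ)).cexp
  have h5 : HasDerivAt (fF P h) _ z := ((hasDerivAt_id z).const_mul (P.ρ : ℂ)).mul h4
  have h6 := e2 (z ^ P.n) (mem_ball_zero_iff.1 h1')
  have hn' : (P.n : ℂ) ≠ 0 := by exact_mod_cast hn
  refine h5.congr_deriv ?_
  simp only [id_eq]
  unfold beta
  rw [h6]
  have h7 : z * z ^ (P.n - 1) = z ^ P.n := by
    rw [← pow_succ']
    congr 1
    omega
  rw [← h7]
  field_simp

/-- **SC-FN1** -/
theorem t_FN1 (hAB : S_AB) (hB1 : S_B1) (hEV : S_EV) (hEH : S_EH) : S_FN1 := by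
  intro P X h v y hF
  have hG := hF.good
  have hX0 := hF.X_pos
  have hX1 := hF.X_le
  have hρ : 0 < P.ρ := lt_of_lt_of_le (by norm_num) hG.rho
  obtain ⟨-, -, -, -, -, -, hn⟩ := hAB P hG
  have hn0 : P.n ≠ 0 := by
    rintro h0
    rw [h0] at hn
    norm_num at hn
  have hnp : (0 : ℝ) < P.n := by linarith
  have hX3 : X ≤ 3 / 10000 := by
    norm_num at hX1 ⊢
    exact hX1
  have hh0 : ‖h‖ ≤ 6 / 10000 := by
    have := hF.sol.nh
    linarith
  have hh : ‖h‖ ≤ 1 / 1000 := hh0.trans (by norm_num)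
  have hnu0 : 0 < P.nu := lt_of_lt_of_le (by norm_num) hG.nu1
  have hnu1 : P.nu ≤ 1 := hG.nu2.trans (by norm_num)
  obtain ⟨⟨b1, b2, -⟩, -⟩ := hB1 P hG h hh
  obtain ⟨e1, e2, -, e4, -, -, e7, -⟩ := hEH wW wA_le_wW
  obtain ⟨-, e2A, -⟩ := hEH wA (fun j => le_refl _)
  have hder := fun (z : ℂ) (hz : z ∈ Metric.ball (0 : ℂ) (rF P)) =>
    fn1_deriv P hn0 h (e1 (Phi P h)) (e7 (Phi P h)) hz
  have hPhi : ∀ t ∈ Metric.ball (0 : ℂ) Rad, ‖evh (Phi P h) t‖ ≤ 1 / 1000 := by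
    intro t ht
    refine (e2 _ t (mem_ball_zero_iff.1 ht).le).trans ?_
    nlinarith [norm_nonneg h]
  have hbeta : ∀ t ∈ Metric.ball (0 : ℂ) Rad, ‖evh (beta P h) t‖ ≤ 8 / 1000 := by
    intro t ht
    refine (e2A _ t (mem_ball_zero_iff.1 ht).le).trans (b2.trans ?_)
    nlinarith [norm_nonneg h]
  refine ⟨⟨hρ, ?_, ?_, ?_, ?_⟩, ?_, ?_⟩
  · -- the radius
    unfold rF
    exact Real.one_lt_rpow (by norm_num [Rad]) (by positivity)
  · intro z hz
    exact (hder z hz).differentiableAt.differentiableWithinAt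
  · simp [fF]
  · intro z hz
    rw [(hder z hz).deriv]
    have h1 := fn1_lt P hn0 hz
    have h2 := hbeta _ h1
    have h3 : ‖evh (Phi P h) (z ^ P.n) / (P.n : ℂ)‖ ≤ 1 / 1000 := by
      rw [norm_div, Complex.norm_natCast, div_le_iff₀ hnp]
      have := hPhi _ h1
      nlinarith
    obtain ⟨b, hb⟩ : ∃ b, b = evh (beta P h) (z ^ P.n) := ⟨_, rfl⟩
    obtain ⟨u, hu⟩ : ∃ u, u = evh (Phi P h) (z ^ P.n) / (P.n : ℂ) := ⟨_, rfl⟩
    rw [← hb] at h2
    rw [← hu] at h3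
    rw [← hb, ← hu]
    have hexp : ‖Complex.exp u - 1‖ ≤ 2 * ‖u‖ := by
      refine Complex.norm_exp_sub_one_le ?_
      linarith
    have h4 : (P.ρ : ℂ) * Complex.exp u * (1 + b) - P.ρ =
        P.ρ * ((Complex.exp u - 1) * (1 + b) + b) := by ring
    rw [h4, norm_mul, Complex.norm_real, Real.norm_eq_abs, abs_of_pos hρ]
    have h5 : ‖(Complex.exp u - 1) * (1 + b) + b‖ ≤ 1 / 10 := by
      refine (norm_add_le _ _).trans ?_
      rw [norm_mul]
      have h6 : ‖1 + b‖ ≤ 1 + 8 / 1000 := by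
        refine (norm_add_le _ _).trans ?_
        rw [norm_one]
        linarith
      have h7 : ‖Complex.exp u - 1‖ * ‖1 + b‖ ≤ (2 / 1000) * (1 + 8 / 1000) :=
        mul_le_mul (by linarith) h6 (norm_nonneg _) (by norm_num)
      have h8 : (2 / 1000 : ℝ) * (1 + 8 / 1000) + 8 / 1000 ≤ 1 / 10 := by norm_num
      linarith
    calc P.ρ * ‖(Complex.exp u - 1) * (1 + b) + b‖ ≤ P.ρ * (1 / 10) := by gcongr
      _ = P.ρ / 10 := by ring
  · -- the symmetry
    have hω := Complex.isPrimitiveRoot_exp P.n hn0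
    refine ⟨_, hω.norm'_eq_one hn0, hω.ne_one ?_, fun z _ => ?_⟩
    · have : (1 : ℝ) < P.n := by linarith
      exact_mod_cast this
    · unfold fF
      rw [mul_pow, hω.pow_eq_one, one_mul]
      ring
  · -- not circular
    have hnorm : ∀ z : ℂ, ‖z‖ = 1 → ‖fF P h z‖ = P.ρ * Real.exp ((ev h (z ^ P.n)).re * P.nu / P.n) := by
      intro z hz
      have ht1 : ‖z ^ P.n‖ = 1 := by rw [norm_pow, hz, one_pow]
      obtain ⟨-, -, -, -, -, -, -, -, -, -, evreal⟩ := hEV wW (z ^ P.n) ht1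
      have hre := (evreal h hF.sol.hc).1
      have h1 : evh (Phi P h) (z ^ P.n) = P.nu * evh (hol h) (z ^ P.n) := by
        unfold Phi
        exact e4 _ _ _
      unfold fF
      rw [norm_mul, norm_mul, hz, mul_one, Complex.norm_exp, Complex.norm_real,
        Real.norm_of_nonneg hρ.le, h1, Complex.div_natCast_re, Complex.re_ofReal_mul, hre]
      congr 2
      ring
    have hev : ∀ t : ℂ, ‖t‖ = 1 → |(ev h t).re - X * (((1 / 2 : ℝ) : ℂ) * (t + t⁻¹)).re| ≤ 15 * X ^ 2 := by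
      intro t ht
      obtain ⟨evn, evadd, evsmul, -, evmon, -⟩ := hEV wW t ht
      have h1 : ev h t = ev (h - X • cc) t + ev (X • cc) t := by
        rw [← evadd, sub_add_cancel]
      have h2 : ev (X • cc) t = X * (((1 / 2 : ℝ) : ℂ) * (t + t⁻¹)) := by
        rw [evsmul]
        unfold cc
        rw [evsmul, evadd, evmon, evmon, zpow_one, zpow_neg_one]
      rw [h1, h2, Complex.add_re, Complex.re_ofReal_mul, add_sub_cancel_right]
      exact (Complex.abs_re_le_norm _).trans ((evn _).trans hF.hX)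
    obtain ⟨z₂, hz₂, hz₂n⟩ : ∃ z₂ : ℂ, ‖z₂‖ = 1 ∧ z₂ ^ P.n = -1 := by
      refine ⟨Complex.exp (((Real.pi / P.n : ℝ) : ℂ) * Complex.I), Complex.norm_exp_ofReal_mul_I _, ?_⟩
      rw [← Complex.exp_nat_mul]
      have : (P.n : ℂ) * (((Real.pi / P.n : ℝ) : ℂ) * Complex.I) = Real.pi * Complex.I := by
        have hn' : (P.n : ℂ) ≠ 0 := by exact_mod_cast hn0
        push_cast
        field_simp
      rw [this, Complex.exp_pi_mul_I]
    refine ⟨1, z₂, norm_one, hz₂, ?_⟩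
    rw [hnorm 1 norm_one, hnorm z₂ hz₂, one_pow, hz₂n]
    have h1 := hev 1 norm_one
    have h2 := hev (-1) (by rw [norm_neg, norm_one])
    have h3 : (((1 / 2 : ℝ) : ℂ) * ((1 : ℂ) + (1 : ℂ)⁻¹)).re = 1 := by norm_num
    have h4 : (((1 / 2 : ℝ) : ℂ) * ((-1 : ℂ) + (-1 : ℂ)⁻¹)).re = -1 := by norm_num
    rw [h3] at h1
    rw [h4] at h2
    have h5 := (abs_le.1 h1).1
    have h6 := (abs_le.1 h2).2
    have h7 : 15 * X ^ 2 ≤ X / 2 := by nlinarith
    have h8 : (ev h (-1)).re < (ev h 1).re := by linarith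
    intro heq
    have h9 : Real.exp ((ev h (-1)).re * P.nu / P.n) < Real.exp ((ev h 1).re * P.nu / P.n) := by
      apply Real.exp_lt_exp.2
      gcongr
    have h10 := mul_lt_mul_of_pos_left h9 hρ
    linarith

end Pool.Agent.Run7.h189.SC
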