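import Pool.Agent.N229.SC.Stm

/-!
Project SC, problem MP_83fd13_an: leaf PDE, the classical solution on the disc (helper189), adapted
from leaf PDE2 of project DR (helper55).
-/

set_option autoImplicit false

open Set Filter Topology MeasureTheory

namespace Pool.Agent.Run7.h189.SC

open Pool.Agent.N229.SC

private theorem pde_f {ρ r : ℝ} {f : ℂ → ℂ} (hc : Conf ρ r f) {z : ℂ}
    (hz : z ∈ Metric.ball (0 : ℂ) r) : HasDerivAt f (deriv f z) z :=
  (hc.f_diff.differentiableAt (Metric.isOpen_ball.mem_nhds hz)).hasDerivAt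

private theorem pde_eF {ρ r : ℝ} {f : ℂ → ℂ} (hc : Conf ρ r f) {z : ℂ}
    (hz : z ∈ Metric.ball (0 : ℂ) r) :
    ∃ L : ℂ →L[ℝ] ℝ, HasFDerivAt (eF ρ f) L z ∧
      ∀ ζ, L ζ = -((starRingEnd ℂ (f z) * deriv f z * ζ).re) / ρ := by
  have h2 := (pde_f hc hz).complexToReal_fderiv
  have h3 := h2.norm_sq
  have h4 := (h3.const_sub (ρ ^ 2)).mul_const ((2 * ρ)⁻¹)
  have hρ := hc.rho_pos
  refine ⟨_, h4.congr_of_eventuallyEq (Eventually.of_forall fun w => ?_), fun ζ => ?_⟩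
  · show (ρ ^ 2 - ‖f w‖ ^ 2) / (2 * ρ) = _
    rw [div_eq_mul_inv]
  · simp [Complex.inner, mul_assoc]
    field_simp
    try ring

/-- derivative of `z ↦ PP Q (e z) z` -/
private theorem pde_comp (hPSM : S_PSM) {ρ r s : ℝ} {f : ℂ → ℂ} (hc : Conf ρ r f) (hs : 0 < s)
    (hsr : s ≤ r) {Q : ℕ → ℂ → ℂ} (hd : ∀ i, DifferentiableOn ℂ (Q i) (Metric.ball 0 s))
    (hb : ∃ C, ∀ i, ∀ z ∈ Metric.ball (0 : ℂ) s, ‖Q i z‖ ≤ C) {z : ℂ}
    (hz : z ∈ Metric.ball (0 : ℂ) s) :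
    ∃ L : ℂ →L[ℝ] ℂ, HasFDerivAt (fun w => PP Q (eF ρ f w) w) L z ∧
      ∀ ζ, L ζ = ((-((starRingEnd ℂ (f z) * deriv f z * ζ).re) / ρ : ℝ) : ℂ) *
        PP (fun i => Q (i + 1)) (eF ρ f z) z + PP (fun i => deriv (Q i)) (eF ρ f z) z * ζ := by
  obtain ⟨L, h1, h2⟩ := pde_eF hc (Metric.ball_subset_ball hsr hz)
  have h3 := (hPSM s Q hs hd hb).1 (eF ρ f z) z hz
  have h4 := h1.prodMk (hasFDerivAt_id (𝕜 := ℝ) z)
  have h5 := HasFDerivAt.comp (g := fun p : ℝ × ℂ => PP Q p.1 p.2)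
    (f := fun w => (eF ρ f w, w)) z h3 h4
  refine ⟨_, h5, fun ζ => ?_⟩
  simp [h2]

private theorem pde_smooth (hPSM : S_PSM) {ρ r s : ℝ} {f : ℂ → ℂ} (hc : Conf ρ r f) (hs : 0 < s)
    (hsr : s ≤ r) {Q : ℕ → ℂ → ℂ} (hd : ∀ i, DifferentiableOn ℂ (Q i) (Metric.ball 0 s))
    (hb : ∃ C, ∀ i, ∀ z ∈ Metric.ball (0 : ℂ) s, ‖Q i z‖ ≤ C) :
    ContDiffOn ℝ 2 (fun w => PP Q (eF ρ f w) w) (Metric.ball 0 s) := by
  have h1 := (hPSM s Q hs hd hb).2
  have hf : ContDiffOn ℝ 2 f (Metric.ball 0 s) := by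
    have h := (hc.f_diff.mono (Metric.ball_subset_ball hsr)).contDiffOn (n := 2) Metric.isOpen_ball
    exact h.restrict_scalars ℝ
  have he : ContDiffOn ℝ 2 (eF ρ f) (Metric.ball 0 s) := by
    unfold eF
    exact (contDiffOn_const.sub (hf.norm_sq ℝ)).div_const _
  exact h1.comp (he.prodMk contDiffOn_id) fun w hw => ⟨mem_univ _, hw⟩

private theorem pde_sum (e : ℝ) (c : ℕ → ℂ) (C : ℝ) (h : ∀ i, ‖c i‖ ≤ C) :
    Summable fun i : ℕ => ((e : ℂ) ^ i / (i.factorial : ℂ)) * c i := by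
  have h1 := (Real.summable_pow_div_factorial |e|).mul_right C
  refine Summable.of_norm_bounded h1 fun i => ?_
  rw [norm_mul, norm_div, norm_pow, Complex.norm_real, Complex.norm_natCast, Real.norm_eq_abs]
  exact mul_le_mul_of_nonneg_left (h i) (by positivity)

private theorem pde_cauchy {r s : ℝ} (_ : 0 < s) (hsr : s < r) {g : ℂ → ℂ} {C : ℝ}
    (hd : DifferentiableOn ℂ g (Metric.ball 0 r)) (hb : ∀ z ∈ Metric.ball (0 : ℂ) r, ‖g z‖ ≤ C)
    {z : ℂ} (hz : z ∈ Metric.ball (0 : ℂ) s) : ‖deriv g z‖ ≤ C / ((r - s) / 2) := by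
  have hR : 0 < (r - s) / 2 := by linarith
  have hsub : Metric.closedBall z ((r - s) / 2) ⊆ Metric.ball 0 r := by
    intro w hw
    rw [Metric.mem_closedBall] at hw
    rw [Metric.mem_ball] at hz ⊢
    have := dist_triangle w z 0
    linarith
  refine Complex.norm_deriv_le_of_forall_mem_sphere_norm_le hR ?_ fun w hw => ?_
  · refine DifferentiableOn.diffContOnCl ?_
    exact hd.mono ((closure_mono Metric.ball_subset_closedBall).trans
      (by rw [Metric.isClosed_closedBall.closure_eq]; exact hsub))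
  · exact hb w (hsub (Metric.sphere_subset_closedBall hw))

private theorem pde_rel {ρ r s : ℝ} {f : ℂ → ℂ} {Q : ℕ → ℂ → ℂ} (hS : Str ρ r f Q) (hs : 0 < s)
    (hsr : s < r) {z : ℂ} (hz : z ∈ Metric.ball (0 : ℂ) s) (e : ℝ) :
    f z * PP (fun i => deriv (Q (i + 1))) e z +
      deriv f z * (PP (fun i => Q (i + 1)) e z + e * PP (fun i => Q (i + 2)) e z) =
    ρ / 2 * (deriv f z * (PP Q e z + PP (fun i => Q (i + 2)) e z)) := by
  have hzr : z ∈ Metric.ball (0 : ℂ) r := Metric.ball_subset_ball hsr.le hz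
  obtain ⟨C, hC⟩ := hS.Q_bd
  have b0 : ∀ i, ‖Q i z‖ ≤ C := fun i => hC i z hzr
  have hA := (pde_sum e (fun i => deriv (Q (i + 1)) z) _
    (fun i => pde_cauchy hs hsr (hS.Q_diff (i + 1)) (hC (i + 1)) hz)).hasSum
  have hX := (pde_sum e (fun i => Q (i + 1) z) C (fun i => b0 (i + 1))).hasSum
  have h0 := (pde_sum e (fun i => Q i z) C b0).hasSum
  have hG := (pde_sum e (fun i => Q (i + 2) z) C (fun i => b0 (i + 2))).hasSum
  have hI : HasSum (fun i : ℕ => ((e : ℂ) ^ i / (i.factorial : ℂ)) * ((i : ℂ) * Q (i + 1) z))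
      (e * PP (fun i => Q (i + 2)) e z) := by
    have h1 := hG.mul_left (e : ℂ)
    have h2 : HasSum (fun i : ℕ => ((e : ℂ) ^ (i + 1) / ((i + 1).factorial : ℂ)) *
        (((i + 1 : ℕ) : ℂ) * Q (i + 1 + 1) z)) (e * PP (fun i => Q (i + 2)) e z) := by
      refine h1.congr_fun fun i => ?_
      have hi : (((i + 1 : ℕ)) : ℂ) ≠ 0 := Nat.cast_ne_zero.mpr (Nat.succ_ne_zero i)
      have hf : ((i.factorial : ℕ) : ℂ) ≠ 0 := Nat.cast_ne_zero.mpr (Nat.factorial_ne_zero i)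
      rw [Nat.factorial_succ, Nat.cast_mul, pow_succ]
      field_simp
    have h3 := (hasSum_nat_add_iff (f := fun i : ℕ => ((e : ℂ) ^ i / (i.factorial : ℂ)) *
      ((i : ℂ) * Q (i + 1) z)) 1).mp h2
    simpa using h3
  have hL := (hA.mul_left (f z)).add ((hX.add hI).mul_left (deriv f z))
  have hR := ((h0.add hG).mul_left (deriv f z)).mul_left ((ρ : ℂ) / 2)
  refine hL.unique (hR.congr_fun fun i => ?_)
  have := hS.rel i z hzr
  linear_combination ((e : ℂ) ^ i / (i.factorial : ℂ)) * this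

/-- the derivative of `S` -/
private theorem pde_S (hPSM : S_PSM) {ρ r s : ℝ} {f : ℂ → ℂ} {Q : ℕ → ℂ → ℂ}
    (hS : Str ρ r f Q) (hs : 0 < s) (hsr : s < r) {z : ℂ} (hz : z ∈ Metric.ball (0 : ℂ) s) :
    ∃ L : ℂ →L[ℝ] ℂ, HasFDerivAt (SS ρ f Q) L z ∧ ∃ f2 A2 : ℂ, ∀ ζ,
      L ζ = ((-((starRingEnd ℂ (f z) * deriv f z * ζ).re) / ρ : ℝ) : ℂ) *
          PP (fun i => deriv (Q (i + 1))) (eF ρ f z) z + A2 * ζ -
        ((f2 * ζ * starRingEnd ℂ (f z) + deriv f z * starRingEnd ℂ (deriv f z * ζ)) / ρ *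
            ((PP (fun i => Q (i + 1)) (eF ρ f z) z).re : ℂ) +
          deriv f z * starRingEnd ℂ (f z) / ρ *
            ((((-((starRingEnd ℂ (f z) * deriv f z * ζ).re) / ρ : ℝ) : ℂ) *
              PP (fun i => Q (i + 2)) (eF ρ f z) z +
              PP (fun i => deriv (Q (i + 1))) (eF ρ f z) z * ζ).re : ℂ)) := by
  have hc := hS.conf
  obtain ⟨C, hC⟩ := hS.Q_bd
  have hsub := Metric.ball_subset_ball (x := (0 : ℂ)) hsr.le
  have hzr := hsub hz
  obtain ⟨LA, hA1, hA2⟩ := pde_comp hPSM hc hs hsr.le (Q := fun i => deriv (Q i))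
    (fun i => ((hS.Q_diff i).deriv Metric.isOpen_ball).mono hsub)
    ⟨_, fun i w hw => pde_cauchy hs hsr (hS.Q_diff i) (hC i) hw⟩ hz
  obtain ⟨LR, hR1, hR2⟩ := pde_comp hPSM hc hs hsr.le (Q := fun i => Q (i + 1))
    (fun i => (hS.Q_diff (i + 1)).mono hsub) ⟨C, fun i w hw => hC _ w (hsub hw)⟩ hz
  have hf := (pde_f hc hzr).complexToReal_fderiv
  have hf2 : HasDerivAt (deriv f) (deriv (deriv f) z) z :=
    (((hc.f_diff.deriv Metric.isOpen_ball).differentiableAt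
      (Metric.isOpen_ball.mem_nhds hzr))).hasDerivAt
  have hf2' := hf2.complexToReal_fderiv
  have hcf := (Complex.conjCLE.toContinuousLinearMap.hasFDerivAt (x := f z)).comp z hf
  have hre := HasFDerivAt.comp (f := fun w => PP (fun i => Q (i + 1)) (eF ρ f w) w) z
    ((Complex.ofRealCLM.comp Complex.reCLM).hasFDerivAt
      (x := PP (fun i => Q (i + 1)) (eF ρ f z) z)) hR1
  have h1 := hA1.sub (((hf2'.mul hcf).mul_const ((ρ : ℂ)⁻¹)).mul hre)
  refine ⟨_, h1.congr_of_eventuallyEq (Eventually.of_forall fun w => ?_), deriv (deriv f) z,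
    PP (fun i => deriv (deriv (Q i))) (eF ρ f z) z, fun ζ => ?_⟩
  · simp [SS, div_eq_mul_inv]
  · simp [hA2, hR2, div_eq_mul_inv]
    ring

/-- **SC-PDE** -/
theorem t_PDE (hPSM : S_PSM) : S_PDE := by
  intro ρ r f Q hS
  have hc : Conf ρ r f := hS.conf
  have hρ : 0 < ρ := hc.rho_pos
  have hr1 : 1 < r := hc.r_gt
  have hr : 0 < r := by linarith
  have hd := hS.Q_diff
  have hb := hS.Q_bd
  obtain ⟨C, hC⟩ := hb
  -- the derivative of `U`
  have hU : ∀ z ∈ Metric.ball (0 : ℂ) r,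
      HasFDerivAt (UU ρ f Q) (Complex.reCLM.comp (ContinuousLinearMap.mul ℝ ℂ (SS ρ f Q z)))
        z := by
    intro z hz
    obtain ⟨L, h1, h2⟩ := pde_comp hPSM hc hr le_rfl (Q := Q) hd ⟨C, hC⟩ hz
    have h3 := HasFDerivAt.comp (f := fun w => PP Q (eF ρ f w) w) z
      (Complex.reCLM.hasFDerivAt (x := PP Q (eF ρ f z) z)) h1
    refine h3.congr_fderiv ?_
    ext ζ
    simp only [ContinuousLinearMap.comp_apply, h2, ContinuousLinearMap.mul_apply', SS,
      Complex.reCLM_apply]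
    generalize deriv (f : ℂ → ℂ) z = F1
    generalize (f z : ℂ) = F
    simp
    field_simp
    ring
  have hlap : ∀ z ∈ Metric.ball (0 : ℂ) r,
      (fderiv ℝ (SS ρ f Q) z 1).re - (fderiv ℝ (SS ρ f Q) z Complex.I).im =
        -(‖deriv f z‖ ^ 2 * UU ρ f Q z) := by
    intro z hz
    obtain ⟨s, hs1, hsr⟩ := exists_between (mem_ball_zero_iff.1 hz)
    have hs0 : 0 < s := (norm_nonneg z).trans_lt hs1
    have hzs : z ∈ Metric.ball (0 : ℂ) s := mem_ball_zero_iff.2 hs1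
    obtain ⟨L, h1, f2, A2, h2⟩ := pde_S hPSM hS hs0 hsr hzs
    have h3 := pde_rel hS hs0 hsr hzs (eF ρ f z)
    rw [h1.fderiv, h2, h2, UU]
    have he : eF ρ f z = (ρ ^ 2 - ((f z : ℂ).re * (f z : ℂ).re +
        (f z : ℂ).im * (f z : ℂ).im)) / (2 * ρ) := by
      rw [eF, Complex.sq_norm, Complex.normSq_apply]
    rw [Complex.sq_norm, Complex.normSq_apply]
    generalize hE : eF ρ f z = E at *
    generalize PP (fun i => Q (i + 1)) E z = X at *
    generalize PP (fun i => Q (i + 2)) E z = G at *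
    generalize PP (fun i => deriv (Q (i + 1))) E z = B at *
    generalize PP Q E z = P0 at *
    generalize deriv (f : ℂ → ℂ) z = F1 at *
    generalize (f z : ℂ) = F at *
    rw [Complex.ext_iff] at h3
    obtain ⟨h3r, h3i⟩ := h3
    simp at h3r h3i
    simp
    have hρ0 : ρ ≠ 0 := hρ.ne'
    rw [he] at h3r h3i
    linear_combination (norm := (field_simp; ring)) (-2 / ρ) * (F1.re * h3r + F1.im * h3i)
  have hder0 : ∀ z : ℂ, ‖z‖ = 1 → HasFDerivAt (UU ρ f Q) (0 : ℂ →L[ℝ] ℝ) z := by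
    intro z hz
    have h1 := hU z (mem_ball_zero_iff.2 (by rw [hz]; exact hr1))
    rw [hS.bdry z hz] at h1
    refine h1.congr_fderiv ?_
    ext ζ
    simp
  have hcirc : ∀ θ : ℝ, UU ρ f Q (Complex.exp (θ * Complex.I)) = UU ρ f Q 1 := by
    have h0 : ∀ θ : ℝ, HasDerivAt (fun θ : ℝ => UU ρ f Q (Complex.exp (θ * Complex.I))) 0 θ := by
      intro θ
      have h1 : HasDerivAt (fun θ : ℝ => Complex.exp (θ * Complex.I))
          (Complex.exp (θ * Complex.I) * (1 * Complex.I)) θ :=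
        ((Complex.ofRealCLM.hasDerivAt (x := θ)).mul_const Complex.I).cexp
      have h2 := (hder0 (Complex.exp (θ * Complex.I))
        (Complex.norm_exp_ofReal_mul_I θ)).comp_hasDerivAt θ h1
      rw [zero_apply] at h2
      exact h2
    intro θ
    have h2 := is_const_of_deriv_eq_zero (f := fun θ : ℝ => UU ρ f Q (Complex.exp (θ * Complex.I)))
      (fun θ => (h0 θ).differentiableAt) (fun θ => (h0 θ).deriv) θ 0
    simpa using h2
  have hbd : ∀ z : ℂ, ‖z‖ = 1 → UU ρ f Q z = UU ρ f Q 1 := by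
    intro z hz
    have h1 := Complex.norm_mul_exp_arg_mul_I z
    rw [hz, Complex.ofReal_one, one_mul] at h1
    rw [← h1]
    exact hcirc _
  refine ⟨r, UU ρ f Q 1, UU ρ f Q, SS ρ f Q, hr1, le_rfl, hU, ?_, hlap, hS.bdry, hbd, ?_⟩
  · intro x hx
    obtain ⟨s, hs1, hsr⟩ := exists_between (mem_ball_zero_iff.1 hx)
    have hs0 : 0 < s := (norm_nonneg x).trans_lt hs1
    have hsub := Metric.ball_subset_ball (x := (0 : ℂ)) hsr.le
    have hSm : ContDiffOn ℝ 1 (SS ρ f Q) (Metric.ball 0 s) := by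
      have h1 := pde_smooth hPSM hc hs0 hsr.le (Q := fun i => deriv (Q i))
        (fun i => ((hS.Q_diff i).deriv Metric.isOpen_ball).mono hsub)
        ⟨_, fun i w hw => pde_cauchy hs0 hsr (hS.Q_diff i) (hC i) hw⟩
      have h2 := pde_smooth hPSM hc hs0 hsr.le (Q := fun i => Q (i + 1))
        (fun i => (hS.Q_diff (i + 1)).mono hsub) ⟨C, fun i w hw => hC _ w (hsub hw)⟩
      have hf : ContDiffOn ℝ 2 (f : ℂ → ℂ) (Metric.ball 0 s) :=
        ((hc.f_diff.mono hsub).contDiffOn (n := 2) Metric.isOpen_ball).restrict_scalars ℝ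
      have hf2 : ContDiffOn ℝ 2 (deriv (f : ℂ → ℂ)) (Metric.ball 0 s) :=
        (((hc.f_diff.deriv Metric.isOpen_ball).mono hsub).contDiffOn (n := 2)
          Metric.isOpen_ball).restrict_scalars ℝ
      have hcf : ContDiffOn ℝ 2 (fun w => starRingEnd ℂ (f w)) (Metric.ball 0 s) :=
        (Complex.conjCLE.contDiff (n := 2)).comp_contDiffOn hf
      have h3 : ContDiffOn ℝ 2 (fun w => ((PP (fun i => Q (i + 1)) (eF ρ f w) w).re : ℂ))
          (Metric.ball 0 s) :=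
        ((Complex.ofRealCLM.comp Complex.reCLM).contDiff (n := 2)).comp_contDiffOn h2
      have h4 := h1.sub (((hf2.mul hcf).div_const (ρ : ℂ)).mul h3)
      exact h4.of_le (by norm_num)
    exact (hSm.contDiffAt (Metric.isOpen_ball.mem_nhds (mem_ball_zero_iff.2 hs1))).contDiffWithinAt
  · obtain ⟨z, hz, hne⟩ := hS.ne
    rw [← hbd z hz]
    exact hne

end Pool.Agent.Run7.h189.SC
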